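import Mathlib

/-!
Dynamical notions used in the statement: transitivity, weak mixing, filter-sensitivity and
thick sensitivity.
-/

namespace Pool.Agent.MP_bfac72_an

open Set Function TopologicalSpace

/-! ### The dynamical notions of the problem file -/

/-- nonempty open set -/
def Opene {X : Type*} [TopologicalSpace X] (U : Set X) : Prop := IsOpen U ∧ U.Nonempty

/-- `N_T(U,V)` : the set of `n` with `T^n U ∩ V ≠ ∅` -/
def hitTimes {X : Type*} (T : X → X) (U V : Set X) : Set ℕ :=
  {n | ((T^[n]) '' U ∩ V).Nonempty}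

/-- topological transitivity -/
def IsTransitiveSystem {X : Type*} [TopologicalSpace X] (T : X → X) : Prop :=
  ∀ U V : Set X, Opene U → Opene V → (hitTimes T U V).Nonempty

/-- weak mixing : the product system `(X × X, T × T)` is transitive -/
def IsWeaklyMixing {X : Type*} [TopologicalSpace X] (T : X → X) : Prop :=
  IsTransitiveSystem (Prod.map T T)

/-- `S_T(U,δ)` -/
def sensTimes {X : Type*} [MetricSpace X] (T : X → X) (U : Set X) (δ : ℝ) : Set ℕ :=
  {n | ∃ x ∈ U, ∃ y ∈ U, δ < dist (T^[n] x) (T^[n] y)}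

/-- the family `𝒮_T(δ)` of all supersets of the sets `S_T(U,δ)`, `U` opene -/
def sensFamily {X : Type*} [MetricSpace X] (T : X → X) (δ : ℝ) : Set (Set ℕ) :=
  {A | ∃ U : Set X, Opene U ∧ sensTimes T U δ ⊆ A}

/-- a family is proper if it is neither empty nor the whole power set -/
def IsProperFamily (F : Set (Set ℕ)) : Prop := F ≠ ∅ ∧ F ≠ Set.univ

/-- a filter : a proper family closed under intersections of two members -/
def IsFilterFamily (F : Set (Set ℕ)) : Prop :=
  IsProperFamily F ∧ ∀ A ∈ F, ∀ B ∈ F, A ∩ B ∈ F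

/-- filter-sensitivity -/
def IsFilterSensitive {X : Type*} [MetricSpace X] (T : X → X) : Prop :=
  ∃ δ : ℝ, 0 < δ ∧ IsFilterFamily (sensFamily T δ)

/-- thick subsets of `ℕ` : they contain arbitrarily long intervals -/
def IsThick (A : Set ℕ) : Prop := ∀ k : ℕ, ∃ n : ℕ, ∀ i < k, n + i ∈ A

/-- thick sensitivity -/
def IsThicklySensitive {X : Type*} [MetricSpace X] (T : X → X) : Prop :=
  ∃ δ : ℝ, 0 < δ ∧ ∀ U : Set X, Opene U → IsThick (sensTimes T U δ)

end Pool.Agent.MP_bfac72_an
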