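import Mathlib
import Pool.Agent.MP_bfac72_an.Defs

/-!
A marker subshift that is weakly mixing but not filter-sensitive, for any compatible metric.

For `j` in `ℕ` the marker of type `j` is the word `1 0^{3j} 1`.  There is a sparse sequence of
special times `sp r`, each with a type `ty r`, every type occurring infinitely often.  A point
belongs to the subshift iff whenever a marker of type `j` occurs at position `i`, the block of
length `j + 1` starting at `i + sp r` is zero for every `r` of type `j`.
-/

namespace Pool.Agent.MP_bfac72_an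

open Set Function TopologicalSpace

/-! ### Combinatorics of the special times -/

/-- type of the `r`-th special time -/
def ty (r : ℕ) : ℕ := (Nat.unpair r).1

/-- the `r`-th special time -/
def sp (r : ℕ) : ℕ := (r + 2) ^ 2

lemma ty_le (r : ℕ) : ty r ≤ r := Nat.unpair_left_le r

lemma exists_ty (j R : ℕ) : ∃ r, R ≤ r ∧ ty r = j :=
  ⟨Nat.pair j R, Nat.right_le_pair j R, by simp [ty]⟩

lemma sp_large (r : ℕ) : 3 * ty r + 2 ≤ sp r := by
  have := ty_le r
  unfold sp
  nlinarith

lemma sp_gap {r r' : ℕ} (h : r < r') : sp r + ty r + r' + 4 ≤ sp r' := by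
  have := ty_le r
  unfold sp
  obtain ⟨d, rfl⟩ := Nat.exists_eq_add_of_lt h
  nlinarith [Nat.zero_le d, Nat.zero_le r, mul_nonneg (Nat.zero_le d) (Nat.zero_le r)]

/-- the word `1 0^{3j} 1` occurs in `x` at position `i` -/
def Mark (x : ℕ → Bool) (i j : ℕ) : Prop :=
  x i = true ∧ x (i + 3 * j + 1) = true ∧ ∀ t, 1 ≤ t → t ≤ 3 * j → x (i + t) = false

/-- the defining condition of the subshift -/
def Good (x : ℕ → Bool) : Prop :=
  ∀ i j, Mark x i j → ∀ r, ty r = j → ∀ t ≤ j, x (i + sp r + t) = false

lemma mark_sep {x : ℕ → Bool} {i i' j : ℕ} (h : Mark x i j) (h' : Mark x i' j) (hlt : i < i') :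
    i + 3 * j < i' := by
  by_contra hcon
  push Not at hcon
  have h1 := h.2.2 (i' - i) (by omega) (by omega)
  have h2 := h'.1
  have : i + (i' - i) = i' := by omega
  rw [this] at h1
  rw [h1] at h2
  exact Bool.noConfusion h2

/-- truncation -/
def trunc (N : ℕ) (x : ℕ → Bool) : ℕ → Bool := fun i => if i < N then x i else false

lemma trunc_good {x : ℕ → Bool} (hx : Good x) (N : ℕ) : Good (trunc N x) := by
  intro i j hm r hr t ht
  obtain ⟨h1, h2, h3⟩ := hm
  unfold trunc at *
  have hiN : i + 3 * j + 1 < N := by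
    by_contra hcon
    simp [hcon] at h2
  have hi : i < N := by omega
  simp only [hi, hiN, if_true] at h1 h2
  have hm' : Mark x i j := by
    refine ⟨h1, h2, fun t ht1 ht2 => ?_⟩
    have := h3 t ht1 ht2
    have hit : i + t < N := by omega
    simpa only [hit, if_true] using this
  have := hx i j hm' r hr t ht
  split_ifs
  · exact this
  · rfl

/-- join `x` (up to `n`) and `a` (from `n` on) -/
def join (n : ℕ) (x a : ℕ → Bool) : ℕ → Bool := fun i => if i < n then x i else a (i - n)

lemma join_good {x a : ℕ → Bool} {N M n : ℕ} (hx : Good x) (ha : Good a)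
    (hxN : ∀ i, N ≤ i → x i = false) (haM : ∀ i, M ≤ i → a i = false)
    (hn : 4 * N + 3 * M + 1 ≤ n)
    (hfree : ∀ i j, Mark x i j → ∀ r, ty r = j → ∀ t ≤ j,
      i + sp r + t < n ∨ n + M ≤ i + sp r + t) : Good (join n x a) := by
  intro i j hm r hr t ht
  obtain ⟨h1, h2, h3⟩ := hm
  by_cases hin : i < n
  · have hx1 : x i = true := by simpa [join, hin] using h1
    have hiN : i < N := by
      by_contra hcon
      push Not at hcon
      rw [hxN i hcon] at hx1
      exact Bool.noConfusion hx1
    by_cases hj : i + 3 * j + 1 < n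
    · -- marker inside x
      have hx2 : x (i + 3 * j + 1) = true := by simpa [join, hj] using h2
      have hm' : Mark x i j := by
        refine ⟨hx1, hx2, fun t ht1 ht2 => ?_⟩
        have := h3 t ht1 ht2
        have hit : i + t < n := by omega
        simpa [join, hit] using this
      have hc := hx i j hm' r hr t ht
      rcases hfree i j hm' r hr t ht with h | h
      · simpa [join, h] using hc
      · have hnot : ¬ (i + sp r + t < n) := by omega
        simp only [join, hnot, if_false]
        exact haM _ (by omega)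
    · -- crossing marker
      have hjbig : N + M ≤ j := by omega
      have hrj : j ≤ r := hr ▸ ty_le r
      have hsp : n + M ≤ i + sp r + t := by
        have : (j + 2) ^ 2 ≤ sp r := by
          unfold sp
          exact Nat.pow_le_pow_left (by omega) 2
        nlinarith
      have hnot : ¬ (i + sp r + t < n) := by omega
      simp only [join, hnot, if_false]
      exact haM _ (by omega)
  · -- marker inside a
    have hni : n ≤ i := not_lt.mp hin
    have hm' : Mark a (i - n) j := by
      refine ⟨?_, ?_, fun t ht1 ht2 => ?_⟩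
      · simpa [join, hin] using h1
      · have hnot : ¬ (i + 3 * j + 1 < n) := by omega
        have : a (i + 3 * j + 1 - n) = true := by simpa [join, hnot] using h2
        have he : i + 3 * j + 1 - n = i - n + 3 * j + 1 := by omega
        rwa [he] at this
      · have hnot : ¬ (i + t < n) := by omega
        have : a (i + t - n) = false := by simpa [join, hnot] using h3 t ht1 ht2
        have he : i + t - n = i - n + t := by omega
        rwa [he] at this
    have hc := ha (i - n) j hm' r hr t ht
    have hnot : ¬ (i + sp r + t < n) := by omega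
    simp only [join, hnot, if_false]
    have he : i + sp r + t - n = i - n + sp r + t := by omega
    rw [he]
    exact hc

/-- the point with exactly two ones, at `m` and `m + 3j + 1` -/
def twoPt (m j : ℕ) : ℕ → Bool := fun i => decide (i = m) || decide (i = m + 3 * j + 1)

lemma twoPt_true {m j i : ℕ} : twoPt m j i = true ↔ i = m ∨ i = m + 3 * j + 1 := by
  simp [twoPt]

lemma twoPt_mark (m j : ℕ) : Mark (twoPt m j) m j := by
  refine ⟨?_, ?_, ?_⟩
  · simp [twoPt]
  · simp [twoPt]
  · intro t h1 h2
    rw [Bool.eq_false_iff]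
    intro h
    rcases twoPt_true.1 h with h | h <;> omega

lemma twoPt_good (m j : ℕ) : Good (twoPt m j) := by
  intro i j' hm r hr t ht
  obtain ⟨h1, h2, h3⟩ := hm
  rcases twoPt_true.1 h1 with h | h
  · rcases twoPt_true.1 h2 with h' | h'
    · omega
    · have hj : j' = j := by omega
      have := sp_large r
      rw [Bool.eq_false_iff]
      intro hc
      rcases twoPt_true.1 hc with hc | hc <;> omega
  · rcases twoPt_true.1 h2 with h' | h' <;> omega

lemma good_shift {x : ℕ → Bool} (hx : Good x) : Good (fun i => x (i + 1)) := by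
  intro i j hm r hr t ht
  have hm' : Mark x (i + 1) j := by
    refine ⟨hm.1, ?_, fun t h1 h2 => ?_⟩
    · have := hm.2.1
      have he : i + 3 * j + 1 + 1 = i + 1 + 3 * j + 1 := by omega
      simpa only [he] using this
    · have := hm.2.2 t h1 h2
      have he : i + t + 1 = i + 1 + t := by omega
      simpa only [he] using this
  have := hx (i + 1) j hm' r hr t ht
  have he : i + sp r + t + 1 = i + 1 + sp r + t := by omega
  simpa only [he] using this

lemma good_cons {x : ℕ → Bool} (hx : Good x) : Good (fun i => if i = 0 then false else x (i - 1)) := by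
  intro i j hm r hr t ht
  obtain ⟨h1, h2, h3⟩ := hm
  have hi : i ≠ 0 := by
    rintro rfl
    simp at h1
  have hm' : Mark x (i - 1) j := by
    refine ⟨by simpa [hi] using h1, ?_, fun t ht1 ht2 => ?_⟩
    · have hne : i + 3 * j + 1 ≠ 0 := by omega
      have he : i + 3 * j + 1 - 1 = i - 1 + 3 * j + 1 := by omega
      simp only [hne, if_false, he] at h2
      exact h2
    · have := h3 t ht1 ht2
      have hne : i + t ≠ 0 := by omega
      have he : i + t - 1 = i - 1 + t := by omega
      simp only [hne, if_false, he] at this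
      exact this
  have := hx (i - 1) j hm' r hr t ht
  have hne : i + sp r + t ≠ 0 := by omega
  have he : i + sp r + t - 1 = i - 1 + sp r + t := by omega
  simp only [hne, if_false, he]
  exact this

/-! ### The space -/

/-- the subshift -/
abbrev XX : Type := {x : ℕ → Bool // Good x}

lemma isClosed_good : IsClosed {x : ℕ → Bool | Good x} := by
  have heq : {x : ℕ → Bool | Good x} = ⋂ (i : ℕ) (j : ℕ) (r : ℕ) (t : ℕ),
      {x : ℕ → Bool | Mark x i j → ty r = j → t ≤ j → x (i + sp r + t) = false} := by
    ext x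
    simp only [mem_ofPred_eq, mem_iInter, Good]
    constructor
    · intro h i j r t h1 h2 h3
      exact h i j h1 r h2 t h3
    · intro h i j h1 r h2 t h3
      exact h i j r t h1 h2 h3
  rw [heq]
  refine isClosed_iInter fun i => isClosed_iInter fun j => isClosed_iInter fun r =>
    isClosed_iInter fun t => ?_
  have hev : ∀ k : ℕ, Continuous fun x : ℕ → Bool => x k := fun k => continuous_apply k
  have hclopen : ∀ (k : ℕ) (b : Bool), IsClopen {x : ℕ → Bool | x k = b} := fun k b =>
    (isClopen_discrete ({b} : Set Bool)).preimage (hev k)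
  have hmark : IsClopen {x : ℕ → Bool | Mark x i j} := by
    have he : {x : ℕ → Bool | Mark x i j} = {x : ℕ → Bool | x i = true} ∩
        ({x : ℕ → Bool | x (i + 3 * j + 1) = true} ∩
        ⋂ t ∈ Finset.Icc 1 (3 * j), {x : ℕ → Bool | x (i + t) = false}) := by
      ext x
      simp only [Mark, mem_ofPred_eq, mem_inter_iff, mem_iInter, Finset.mem_Icc, and_imp]
    rw [he]
    refine (hclopen _ _).inter ((hclopen _ _).inter ?_)
    exact (Finset.Icc 1 (3 * j)).finite_toSet.isClopen_biInter (fun t _ => hclopen _ _)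
  have he : {x : ℕ → Bool | Mark x i j → ty r = j → t ≤ j → x (i + sp r + t) = false} =
      {x : ℕ → Bool | Mark x i j}ᶜ ∪ ({x : ℕ → Bool | ¬ (ty r = j ∧ t ≤ j)} ∪
        {x : ℕ → Bool | x (i + sp r + t) = false}) := by
    ext x
    simp only [mem_ofPred_eq, mem_union, mem_compl_iff]
    tauto
  rw [he]
  refine hmark.compl.isClosed.union (IsClosed.union ?_ (hclopen _ _).isClosed)
  by_cases h : ty r = j ∧ t ≤ j
  · simp [h]
  · simp [h]

instance : CompactSpace XX := by
  have : IsCompact {x : ℕ → Bool | Good x} := isClosed_good.isCompact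
  exact isCompact_iff_compactSpace.1 this

instance : MetrizableSpace XX := Topology.IsEmbedding.subtypeVal.metrizableSpace

instance : Nontrivial XX := by
  refine ⟨⟨twoPt 0 0, twoPt_good 0 0⟩, ⟨twoPt 1 0, twoPt_good 1 0⟩, ?_⟩
  intro h
  have h1 := congrArg Subtype.val h
  have h2 := congrFun h1 0
  simp [twoPt] at h2

/-- the shift map -/
def shift (x : XX) : XX := ⟨fun i => x.1 (i + 1), good_shift x.2⟩

lemma continuous_shift : Continuous shift := by
  refine Continuous.subtype_mk ?_ _
  refine continuous_pi fun i => ?_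
  exact (continuous_apply (i + 1)).comp continuous_subtype_val

lemma surjective_shift : Surjective shift := by
  intro x
  refine ⟨⟨_, good_cons x.2⟩, ?_⟩
  apply Subtype.ext
  funext i
  simp [shift]

lemma iterate_shift (n : ℕ) (x : XX) (i : ℕ) : (shift^[n] x).1 i = x.1 (i + n) := by
  induction n generalizing i with
  | zero => simp
  | succ n ih =>
    rw [iterate_succ_apply']
    change (shift^[n] x).1 (i + 1) = _
    rw [ih]
    have he : i + 1 + n = i + (n + 1) := by omega
    rw [he]

lemma isOpen_coord (q : ℕ) (b : Bool) : IsOpen {x : XX | x.1 q = b} := by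
  have h : Continuous fun x : XX => x.1 q := (continuous_apply q).comp continuous_subtype_val
  exact (isOpen_discrete ({b} : Set Bool)).preimage h

/-- cylinder neighbourhoods -/
lemma exists_cyl {W : Set XX} (hW : IsOpen W) {x : XX} (hx : x ∈ W) :
    ∃ N : ℕ, ∀ y : XX, (∀ i < N, y.1 i = x.1 i) → y ∈ W := by
  obtain ⟨W', hW', rfl⟩ := isOpen_induced_iff.1 hW
  have hx' : x.1 ∈ W' := hx
  obtain ⟨I, u, hu, hsub⟩ := isOpen_pi_iff.1 hW' x.1 hx'
  obtain ⟨N, hN⟩ := I.exists_nat_subset_range
  refine ⟨N, fun y hy => ?_⟩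
  apply hsub
  intro i hi
  rw [hy i (Finset.mem_range.1 (hN hi))]
  exact (hu i hi).2

/-- the truncation as a point of the system -/
def truncX (N : ℕ) (x : XX) : XX := ⟨trunc N x.1, trunc_good x.2 N⟩

lemma truncX_val_lt {N : ℕ} {x : XX} {i : ℕ} (h : i < N) : (truncX N x).1 i = x.1 i := by
  simp [truncX, trunc, h]

lemma truncX_val_ge {N : ℕ} {x : XX} {i : ℕ} (h : N ≤ i) : (truncX N x).1 i = false := by
  simp [truncX, trunc, not_lt.2 h]

lemma shift_join {n : ℕ} {x a : ℕ → Bool} (h : Good (join n x a)) (ha : Good a) :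
    shift^[n] (⟨join n x a, h⟩ : XX) = ⟨a, ha⟩ := by
  apply Subtype.ext
  funext i
  rw [iterate_shift]
  simp [join]

/-- free times: joining is possible at `sp R - M` -/
lemma join_good_far {x a : ℕ → Bool} {N M R : ℕ} (hx : Good x) (ha : Good a)
    (hxN : ∀ i, N ≤ i → x i = false) (haM : ∀ i, M ≤ i → a i = false)
    (hR : 4 * N + 4 * M + 1 ≤ R) : Good (join (sp R - M) x a) := by
  have hRsp : R + M ≤ sp R := by
    unfold sp
    nlinarith
  refine join_good hx ha hxN haM ?_ ?_
  · have : R ≤ sp R - M := by omega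
    omega
  · intro i j hm r hr t ht
    have hiN : i < N := by
      by_contra hcon
      push Not at hcon
      have := hm.1
      rw [hxN i hcon] at this
      exact Bool.noConfusion this
    rcases lt_or_ge r R with h | h
    · left
      have := sp_gap h
      omega
    · right
      have : sp R ≤ sp r := Nat.pow_le_pow_left (by omega) 2
      omega

lemma exists_hit {U V : Set XX} (hU : Opene U) (hV : Opene V) :
    ∃ C, ∀ M ≥ C, ∀ R ≥ 4 * C + 4 * M + 1, ∃ x ∈ U, shift^[sp R - M] x ∈ V := by
  obtain ⟨hUo, u, hu⟩ := hU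
  obtain ⟨hVo, v, hv⟩ := hV
  obtain ⟨N₁, hN₁⟩ := exists_cyl hUo hu
  obtain ⟨M₁, hM₁⟩ := exists_cyl hVo hv
  refine ⟨max N₁ M₁, fun M hM R hR => ?_⟩
  set C := max N₁ M₁ with hC
  have hg : Good (join (sp R - M) (trunc C u.1) (trunc M v.1)) :=
    join_good_far (trunc_good u.2 C) (trunc_good v.2 M)
      (fun i hi => by simp [trunc, not_lt.2 hi]) (fun i hi => by simp [trunc, not_lt.2 hi]) hR
  refine ⟨⟨_, hg⟩, ?_, ?_⟩
  · apply hN₁
    intro i hi
    have h1 : i < C := lt_of_lt_of_le hi (le_max_left _ _)
    have h2 : i < sp R - M := by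
      have : R + M ≤ sp R := by
        unfold sp
        nlinarith
      omega
    simp [join, trunc, h1, h2]
  · rw [shift_join hg (trunc_good v.2 M)]
    apply hM₁
    intro i hi
    have h1 : i < M := lt_of_lt_of_le hi (le_trans (le_max_right _ _) hM)
    simp [trunc, h1]

lemma weaklyMixing_shift : IsWeaklyMixing shift := by
  intro U V hU hV
  obtain ⟨hUo, ⟨u₁, u₂⟩, hu⟩ := hU
  obtain ⟨hVo, ⟨v₁, v₂⟩, hv⟩ := hV
  obtain ⟨A₁, A₂, hA₁, hA₂, hu₁, hu₂, hA⟩ := isOpen_prod_iff.1 hUo u₁ u₂ hu
  obtain ⟨B₁, B₂, hB₁, hB₂, hv₁, hv₂, hB⟩ := isOpen_prod_iff.1 hVo v₁ v₂ hv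
  obtain ⟨C₁, hC₁⟩ := exists_hit ⟨hA₁, u₁, hu₁⟩ ⟨hB₁, v₁, hv₁⟩
  obtain ⟨C₂, hC₂⟩ := exists_hit ⟨hA₂, u₂, hu₂⟩ ⟨hB₂, v₂, hv₂⟩
  set M := max C₁ C₂ with hM
  have h1 : C₁ ≤ M := le_max_left _ _
  have h2 : C₂ ≤ M := le_max_right _ _
  set R := 8 * M + 1 with hR
  obtain ⟨x, hx, hx'⟩ := hC₁ M h1 R (by omega)
  obtain ⟨y, hy, hy'⟩ := hC₂ M h2 R (by omega)
  refine ⟨sp R - M, ((shift^[sp R - M] x), (shift^[sp R - M] y)), ?_, ?_⟩
  · refine ⟨(x, y), hA ⟨hx, hy⟩, ?_⟩
    rw [Prod.map_iterate]
    rfl
  · exact hB ⟨hx', hy'⟩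

lemma transitive_shift : IsTransitiveSystem shift := by
  intro U V hU hV
  obtain ⟨C, hC⟩ := exists_hit hU hV
  obtain ⟨x, hx, hx'⟩ := hC C le_rfl (8 * C + 1) (by omega)
  exact ⟨sp (8 * C + 1) - C, shift^[sp (8 * C + 1) - C] x, ⟨x, hx, rfl⟩, hx'⟩

/-! ### Metric facts -/

lemma continuous_metric {X : Type*} [τ : TopologicalSpace X] (m : MetricSpace X)
    (hm : m.toPseudoMetricSpace.toUniformSpace.toTopologicalSpace = τ) :
    Continuous fun p : X × X => m.dist p.1 p.2 := by
  subst hm
  exact continuous_dist

lemma opene_iff {X : Type*} [τ : TopologicalSpace X] (m : MetricSpace X)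
    (hm : m.toPseudoMetricSpace.toUniformSpace.toTopologicalSpace = τ) (U : Set X) :
    @Opene X m.toPseudoMetricSpace.toUniformSpace.toTopologicalSpace U ↔ Opene U := by
  subst hm
  exact Iff.rfl

/-- points at distance `> δ` stay at distance `> δ` when far coordinates are changed -/
lemma exists_far {D : XX × XX → ℝ} (hD : Continuous D) {δ : ℝ} {x y : XX} (h : δ < D (x, y)) :
    ∃ L : ℕ, ∀ x' y' : XX, (∀ i < L, x'.1 i = x.1 i) → (∀ i < L, y'.1 i = y.1 i) →
      δ < D (x', y') := by
  have ho : IsOpen {p : XX × XX | δ < D p} := isOpen_lt continuous_const hD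
  obtain ⟨A, B, hA, hB, hx, hy, hAB⟩ := isOpen_prod_iff.1 ho x y h
  obtain ⟨N₁, hN₁⟩ := exists_cyl hA hx
  obtain ⟨N₂, hN₂⟩ := exists_cyl hB hy
  refine ⟨max N₁ N₂, fun x' y' hx' hy' => hAB ⟨hN₁ x' fun i hi => ?_, hN₂ y' fun i hi => ?_⟩⟩
  · exact hx' i (lt_of_lt_of_le hi (le_max_left _ _))
  · exact hy' i (lt_of_lt_of_le hi (le_max_right _ _))

/-- points agreeing on a long initial block are `δ`-close -/
lemma exists_close {D : XX × XX → ℝ} (hD : Continuous D) (hD0 : ∀ x, D (x, x) = 0) {δ : ℝ}
    (hδ : 0 < δ) :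
    ∃ k : ℕ, ∀ x y : XX, (∀ i < k, x.1 i = y.1 i) → D (x, y) ≤ δ := by
  by_contra hcon
  push Not at hcon
  let K : ℕ → Set (XX × XX) := fun k => {p | (∀ i < k, p.1.1 i = p.2.1 i) ∧ δ ≤ D p}
  have hKne : ∀ k, (K k).Nonempty := fun k => by
    obtain ⟨x, y, h1, h2⟩ := hcon k
    exact ⟨(x, y), h1, h2.le⟩
  have hKcl : ∀ k, IsClosed (K k) := fun k => by
    have : K k = (⋂ i, ⋂ (_ : i < k), {p : XX × XX | p.1.1 i = p.2.1 i}) ∩ {p | δ ≤ D p} := by
      ext p
      simp [K]
    rw [this]
    refine IsClosed.inter (isClosed_iInter fun i => isClosed_iInter fun _ => ?_)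
      (isClosed_le continuous_const hD)
    refine isClosed_eq ?_ ?_
    · exact (continuous_apply i).comp (continuous_subtype_val.comp continuous_fst)
    · exact (continuous_apply i).comp (continuous_subtype_val.comp continuous_snd)
  have hKanti : ∀ k, K (k + 1) ⊆ K k := fun k p hp =>
    ⟨fun i hi => hp.1 i (by omega), hp.2⟩
  obtain ⟨p, hp⟩ := IsCompact.nonempty_iInter_of_sequence_nonempty_isCompact_isClosed K hKanti
    hKne (hKcl 0).isCompact hKcl
  have hp' : ∀ k, p ∈ K k := fun k => mem_iInter.1 hp k
  have heq : p.1 = p.2 := by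
    apply Subtype.ext
    funext i
    exact (hp' (i + 1)).1 i (by omega)
  have h1 : δ ≤ D p := (hp' 0).2
  have h2 : p = (p.1, p.1) := by
    ext1
    · rfl
    · exact heq.symm
  rw [h2, hD0] at h1
  linarith

/-- For any compatible metric the shift is thickly sensitive. -/
lemma thicklySensitive_shift (m : MetricSpace XX)
    (hm : m.toPseudoMetricSpace.toUniformSpace.toTopologicalSpace = instTopologicalSpaceSubtype) :
    @IsThicklySensitive XX m shift := by
  have hD := continuous_metric m hm
  obtain ⟨a, b, hab⟩ := exists_pair_ne XX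
  have hpos : 0 < m.dist a b := @dist_pos XX m a b |>.2 hab
  obtain ⟨L, hL⟩ := exists_far hD (δ := m.dist a b / 2) (x := a) (y := b)
    (by show m.dist a b / 2 < m.dist a b; linarith)
  refine ⟨m.dist a b / 2, by linarith, fun U hU k => ?_⟩
  have hU' : Opene U := (opene_iff m hm U).1 hU
  have hcylo : ∀ c : XX, Opene {x : XX | ∀ i < L, x.1 i = c.1 i} := fun c => by
    refine ⟨?_, c, fun i _ => rfl⟩
    have : {x : XX | ∀ i < L, x.1 i = c.1 i} = ⋂ i ∈ Finset.range L, {x : XX | x.1 i = c.1 i} := by
      ext x
      simp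
    rw [this]
    exact isOpen_biInter_finset fun i _ => isOpen_coord i (c.1 i)
  obtain ⟨C₁, hC₁⟩ := exists_hit hU' (hcylo a)
  obtain ⟨C₂, hC₂⟩ := exists_hit hU' (hcylo b)
  set C := max C₁ C₂ with hC
  have h1 : C₁ ≤ C := le_max_left _ _
  have h2 : C₂ ≤ C := le_max_right _ _
  set R := 8 * (C + k) + 1 with hR
  have hRsp : R + (C + k) ≤ sp R := by
    unfold sp
    nlinarith
  refine ⟨sp R - (C + k), fun i hi => ?_⟩
  have he : sp R - (C + k) + i = sp R - (C + k - i) := by omega
  rw [he]
  obtain ⟨x, hx, hx'⟩ := hC₁ (C + k - i) (by omega) R (by omega)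
  obtain ⟨y, hy, hy'⟩ := hC₂ (C + k - i) (by omega) R (by omega)
  exact ⟨x, hx, y, hy, hL _ _ hx' hy'⟩

/-- For any compatible metric the shift is not filter-sensitive. -/
lemma not_filterSensitive_shift (m : MetricSpace XX)
    (hm : m.toPseudoMetricSpace.toUniformSpace.toTopologicalSpace = instTopologicalSpaceSubtype) :
    ¬ @IsFilterSensitive XX m shift := by
  rintro ⟨δ, hδ, ⟨-, hproper⟩, hfil⟩
  have hD := continuous_metric m hm
  -- there are two points at distance `> δ`
  by_cases hex : ∃ x y : XX, δ < m.dist x y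
  swap
  · apply hproper
    rw [eq_univ_iff_forall]
    intro A
    refine ⟨Set.univ, (opene_iff m hm _).2 ⟨isOpen_univ, univ_nonempty⟩, ?_⟩
    rintro n ⟨x, -, y, -, hxy⟩
    exact absurd ⟨_, _, hxy⟩ hex
  obtain ⟨x₀, y₀, hxy₀⟩ := hex
  obtain ⟨L, hL⟩ := exists_far hD (δ := δ) (x := x₀) (y := y₀) hxy₀
  obtain ⟨k, hk⟩ := exists_close hD (fun x => @dist_self XX m.toPseudoMetricSpace x) hδ
  -- the marker type
  set j := k + L with hj
  -- the two open sets
  let Vm : ℕ → Set XX := fun p => {x | Mark x.1 p j}
  have hVm : ∀ p, Opene (Vm p) := fun p => by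
    refine ⟨?_, ⟨twoPt p j, twoPt_good p j⟩, twoPt_mark p j⟩
    have he : Vm p = {x : XX | x.1 p = true} ∩ ({x : XX | x.1 (p + 3 * j + 1) = true} ∩
        ⋂ t ∈ Finset.Icc 1 (3 * j), {x : XX | x.1 (p + t) = false}) := by
      ext x
      simp only [Vm, Mark, mem_ofPred_eq, mem_inter_iff, mem_iInter, Finset.mem_Icc, and_imp]
    rw [he]
    exact (isOpen_coord _ _).inter
      ((isOpen_coord _ _).inter (isOpen_biInter_finset fun t _ => isOpen_coord _ _))
  -- the special times are not sensitivity times
  have hclose : ∀ p r, ty r = j → p + sp r ∉ @sensTimes XX m shift (Vm p) δ := by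
    rintro p r hr ⟨x, hx, y, hy, hxy⟩
    have : m.dist (shift^[p + sp r] x) (shift^[p + sp r] y) ≤ δ := by
      apply hk
      intro i hi
      have h1 := x.2 p j hx r hr i (by omega)
      have h2 := y.2 p j hy r hr i (by omega)
      have he : p + sp r + i = i + (p + sp r) := by omega
      rw [he] at h1 h2
      exact ((iterate_shift (p + sp r) x i).trans h1).trans
        ((iterate_shift (p + sp r) y i).trans h2).symm
    exact absurd hxy (not_lt.2 this)
  set q := j + L with hq
  obtain ⟨W, hW, hWsub⟩ := hfil _ ⟨Vm 0, (opene_iff m hm _).2 (hVm 0), Subset.rfl⟩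
    _ ⟨Vm q, (opene_iff m hm _).2 (hVm q), Subset.rfl⟩
  obtain ⟨hWo, w₀, hw₀⟩ := (opene_iff m hm _).1 hW
  obtain ⟨N, hN⟩ := exists_cyl hWo hw₀
  set w := trunc N w₀.1 with hw
  have hwg : Good w := trunc_good w₀.2 N
  have hwN : ∀ i, N ≤ i → w i = false := fun i hi => by simp [hw, trunc, not_lt.2 hi]
  have hag : Good (trunc L x₀.1) := trunc_good x₀.2 L
  have hbg : Good (trunc L y₀.1) := trunc_good y₀.2 L
  have haL : ∀ i, L ≤ i → trunc L x₀.1 i = false := fun i hi => by simp [trunc, not_lt.2 hi]
  have hbL : ∀ i, L ≤ i → trunc L y₀.1 i = false := fun i hi => by simp [trunc, not_lt.2 hi]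
  -- if joining at time `n` is free, then `n` is a sensitivity time of `W`
  have hsens : ∀ n, 4 * N + 3 * L + 1 ≤ n →
      (∀ i j', Mark w i j' → ∀ r, ty r = j' → ∀ t ≤ j',
        i + sp r + t < n ∨ n + L ≤ i + sp r + t) → n ∈ @sensTimes XX m shift W δ := by
    intro n hn hfree
    have hga := join_good hwg hag hwN haL hn hfree
    have hgb := join_good hwg hbg hwN hbL hn hfree
    refine ⟨⟨_, hga⟩, hN _ ?_, ⟨_, hgb⟩, hN _ ?_, ?_⟩
    · intro i hi
      have h2 : i < n := by omega
      simp [join, hw, trunc, hi, h2]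
    · intro i hi
      have h2 : i < n := by omega
      simp [join, hw, trunc, hi, h2]
    · rw [shift_join hga hag, shift_join hgb hbg]
      apply hL
      · intro i hi
        simp [trunc, hi]
      · intro i hi
        simp [trunc, hi]
  -- choose a large special time of type `j`
  obtain ⟨r, hrR, hr⟩ := exists_ty j (4 * N + 4 * L + 4 * q + 4)
  have hrsp : r ≤ sp r := by
    unfold sp
    nlinarith
  by_cases hcase : ∃ i₀ < L, Mark w i₀ j
  · obtain ⟨i₀, hi₀, hm₀⟩ := hcase
    have hmem : q + sp r ∈ @sensTimes XX m shift W δ := by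
      apply hsens
      · omega
      · intro i j' hmk r' hr' t ht
        have hiN : i < N := by
          by_contra hcon
          push Not at hcon
          have := hmk.1
          rw [hwN i hcon] at this
          exact Bool.noConfusion this
        rcases lt_trichotomy r' r with h | h | h
        · left
          have := sp_gap h
          omega
        · subst h
          have hjj : j' = j := by omega
          subst hjj
          rcases lt_trichotomy i i₀ with h' | h' | h'
          · left
            omega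
          · left
            omega
          · right
            have := mark_sep hm₀ hmk h'
            omega
        · right
          have := sp_gap h
          omega
    exact hclose q r hr (hWsub hmem).2
  · push Not at hcase
    have hmem : 0 + sp r ∈ @sensTimes XX m shift W δ := by
      apply hsens
      · omega
      · intro i j' hmk r' hr' t ht
        have hiN : i < N := by
          by_contra hcon
          push Not at hcon
          have := hmk.1
          rw [hwN i hcon] at this
          exact Bool.noConfusion this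
        rcases lt_trichotomy r' r with h | h | h
        · left
          have := sp_gap h
          omega
        · subst h
          have hjj : j' = j := by omega
          subst hjj
          right
          have : L ≤ i := by
            by_contra hcon
            exact hcase i (by omega) hmk
          omega
        · right
          have := sp_gap h
          omega
    exact hclose 0 r hr (hWsub hmem).1

end Pool.Agent.MP_bfac72_an
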